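import Pool.Agent.Q60.D3H.StmA

/-!
# Project D3H, job A1 KMS
-/

set_option autoImplicit false

namespace Pool.Agent.Q154.D3H

open NumberField Module Pool.Agent.H204R3.CM
open Pool.Agent.W547.KB (CMPair)
open Pool.Agent.Q60.D3 (AV)
open Pool.Agent.Q60.D3E (HasCMType)
open Pool.Agent.Q180.UW (mult)
open Pool.Agent.Q60.D3H

/-- the dimension of an eigenspace of a diagonal operator -/
lemma mult_diag {T ι : Type} [AddCommGroup T] [Module ℂ T] [Finite ι] (C : T →ₗ[ℂ] T)
    (C0 : T ≃ₗ[ℂ] (ι → ℂ)) (c : ι → ℂ) (hC : ∀ x i, C0 (C x) i = c i * C0 x i) (ν : ℂ) :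
    mult C ν = Nat.card {i : ι // c i = ν} := by
  classical
  haveI : Fintype ι := Fintype.ofFinite ι
  unfold mult
  let L : LinearMap.ker (C - ν • (LinearMap.id : T →ₗ[ℂ] T)) →ₗ[ℂ] ({i : ι // c i = ν} → ℂ) :=
    { toFun := fun x i => C0 x.1 i.1
      map_add' := by
        intro x y
        funext i
        simp
      map_smul' := by
        intro a x
        funext i
        simp }
  have hker : ∀ x : LinearMap.ker (C - ν • (LinearMap.id : T →ₗ[ℂ] T)), C x.1 = ν • x.1 := by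
    intro x
    have h := x.2
    rw [LinearMap.mem_ker, LinearMap.sub_apply, LinearMap.smul_apply, LinearMap.id_apply,
      sub_eq_zero] at h
    exact h
  have hinj : Function.Injective L := by
    rw [injective_iff_map_eq_zero]
    intro x hx
    have h1 : C0 x.1 = 0 := by
      funext i
      by_cases h : c i = ν
      · exact congrFun hx ⟨i, h⟩
      · have h2 := hC x.1 i
        rw [hker x, map_smul, Pi.smul_apply, smul_eq_mul] at h2
        have h3 : (c i - ν) * C0 x.1 i = 0 := by rw [sub_mul, ← h2, sub_self]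
        rcases mul_eq_zero.mp h3 with h4 | h4
        · exact absurd (sub_eq_zero.mp h4) h
        · exact h4
    have h5 : x.1 = 0 := by
      rw [← map_zero C0] at h1
      exact C0.injective h1
    exact Subtype.ext h5
  have hsurj : Function.Surjective L := by
    intro g
    obtain ⟨f, hf⟩ : ∃ f : ι → ℂ, f = fun i => if h : c i = ν then g ⟨i, h⟩ else 0 := ⟨_, rfl⟩
    have hx : C0.symm f ∈ LinearMap.ker (C - ν • (LinearMap.id : T →ₗ[ℂ] T)) := by
      rw [LinearMap.mem_ker, LinearMap.sub_apply, LinearMap.smul_apply, LinearMap.id_apply,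
        sub_eq_zero]
      apply C0.injective
      funext i
      rw [hC, map_smul, Pi.smul_apply, smul_eq_mul, LinearEquiv.apply_symm_apply]
      by_cases h : c i = ν
      · rw [h]
      · rw [hf]
        simp [h]
    refine ⟨⟨C0.symm f, hx⟩, ?_⟩
    funext i
    show C0 (C0.symm f) i.1 = g i
    rw [LinearEquiv.apply_symm_apply, hf]
    show (if h : c i.1 = ν then g ⟨i.1, h⟩ else 0) = g i
    rw [dif_pos i.2]
  have e := LinearEquiv.ofBijective L ⟨hinj, hsurj⟩
  rw [e.finrank_eq, Module.finrank_fintype_fun_eq_card, Nat.card_eq_fintype_card]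

/-- **A1 KMS** -/
theorem kms : S_kms := by
  intro A B hAB M hM
  obtain ⟨e, C0, h0⟩ := hAB
  obtain ⟨d, δ, μ, hd, hδ, hμ, hMM⟩ := hM
  obtain ⟨C, hC⟩ : ∃ C : A.T →ₗ[ℂ] A.T, ∀ x (ψ : B.Φ), C0 (C x) ψ = ψ.1 δ * C0 x ψ := by
    refine ⟨C0.symm.toLinearMap ∘ₗ (LinearMap.pi fun ψ : B.Φ => (ψ.1 δ) •
      (LinearMap.proj ψ : (B.Φ → ℂ) →ₗ[ℂ] ℂ)) ∘ₗ C0.toLinearMap, ?_⟩
    intro x ψ
    simp
  obtain ⟨φ, hφ⟩ : ∃ φ : A.H →ₗ[ℚ] A.H, ∀ w, e (φ w) = δ * e w := by
    refine ⟨e.symm.toLinearMap ∘ₗ (LinearMap.mulLeft ℚ δ) ∘ₗ e.toLinearMap, ?_⟩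
    intro w
    simp
  haveI : Finite (B.Φ) := inferInstance
  refine ⟨d, μ, φ, C, hd, hμ, ?_, ?_, ?_⟩
  · intro w
    apply C0.injective
    funext ψ
    rw [hC, h0, h0, hφ, map_mul]
  · intro w
    apply e.injective
    rw [hφ, hφ, ← mul_assoc, hδ, map_neg, map_smul, Algebra.smul_def, map_natCast, neg_mul]
  · rw [hMM, mult_diag C C0 (fun ψ => ψ.1 δ) hC μ, mult_diag C C0 (fun ψ => ψ.1 δ) hC (-μ)]

end Pool.Agent.Q154.D3H
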